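import Pool.Agent.N938.Bz.Left

/-!
# Every benzel with nonpositive Conway-Lagarias invariant is tiled by left stones and bones

Proof. Only `a + b = 3 n`, `m = |a - b|`, `m ^ 2 ≤ n` can occur. Let `m ≥ 1`, `a > b`. Three corners of
the benzel consist of rows whose lengths are divisible by three. What remains is the set `X(C, m)` of
the cells with `i, j, k ≤ C` and `j - i, k - j, i - k ≤ 3 C - 2 m + 2`, where `C = (n + m) / 2 - 1`. If
`C ≥ m - 1`, then `X(C + m + 1, m + 1)` is the disjoint union of `X(C, m)` and of three rotated copies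
of a region all of whose rows have lengths divisible by three. After `m - 1` steps there remains the
triangle `X(e, 1) = {i, j, k ≤ e}`, `e = (n - m ^ 2) / 2`, whose rows are tiled by bones and `e` left
stones. For `n = m ^ 2` this gives bone tilings.
-/

set_option autoImplicit false

namespace Pool.Agent.Results.MP_cb668b_co.LeftStonesAndBones

/-- The `(a, b)`-benzel: the cells `(i, j, k)`, `i + j + k = 1`, with
`-(a - 1) ≤ j - i, k - j, i - k ≤ b - 1`. -/
def benzel (a b : ℤ) : Set (ℤ × ℤ × ℤ) :=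
  {p | p.1 + p.2.1 + p.2.2 = 1 ∧ -(a - 1) ≤ p.2.1 - p.1 ∧ p.2.1 - p.1 ≤ b - 1 ∧
    -(a - 1) ≤ p.2.2 - p.2.1 ∧ p.2.2 - p.2.1 ≤ b - 1 ∧
    -(a - 1) ≤ p.1 - p.2.2 ∧ p.1 - p.2.2 ≤ b - 1}

/-- The left stones `{q - e₁, q - e₂, q - e₃}`, `q₁ + q₂ + q₃ = 2`. -/
def IsLeftStone (t : Set (ℤ × ℤ × ℤ)) : Prop :=
  ∃ q : ℤ × ℤ × ℤ, q.1 + q.2.1 + q.2.2 = 2 ∧
    t = {q - (1, 0, 0), q - (0, 1, 0), q - (0, 0, 1)}

/-- The bones `{c, c + d, c + 2 d}` with `d = e₁ - e₂`, `e₂ - e₃` or `e₃ - e₁`. -/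
def IsBone (t : Set (ℤ × ℤ × ℤ)) : Prop :=
  ∃ c d : ℤ × ℤ × ℤ, c.1 + c.2.1 + c.2.2 = 1 ∧
    (d = (1, -1, 0) ∨ d = (0, 1, -1) ∨ d = (-1, 0, 1)) ∧ t = {c, c + d, c + 2 • d}

/-- The number `I(a, b)` of the question. (All three numerators are even.) -/
def invariant (a b : ℤ) : ℤ :=
  if (a + b) % 3 = 0 then (3 * a ^ 2 - 6 * a * b + 3 * b ^ 2 - a - b) / 2
  else if (a + b) % 3 = 1 then (-a ^ 2 + 4 * a * b - b ^ 2 - a - b + 2) / 2
  else (3 * a ^ 2 - 6 * a * b + 3 * b ^ 2 + a + b - 2) / 2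

open Pool.Agent.N938.Bz

/-- The case `a = b + m`, `m ≥ 1`. -/
theorem tileable_gt (e m : ℕ) :
    Tileable (leftStones ∪ bones)
      (benzel (3 * (e + (m + 1) * (m + 2) / 2 - 1) + 3 - (m + 1))
        (3 * (e + (m + 1) * (m + 2) / 2 - 1) + 3 - 2 * (m + 1))) := by
  set C : ℤ := (e : ℤ) + ((m : ℤ) + 1) * (m + 2) / 2 - 1 with hC
  have hge : (m : ℤ) + 1 ≤ ((m : ℤ) + 1) * (m + 2) / 2 := by
    rw [Int.le_ediv_iff_mul_le (by norm_num)]
    nlinarith
  have hCm : (m : ℤ) ≤ C := by
    have : (0 : ℤ) ≤ e := Int.natCast_nonneg e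
    omega
  have hX : Tileable (leftStones ∪ bones) (X C (m + 1)) := tileable_X e m
  have hKt := tileable_rows (T := leftStones ∪ bones) Set.subset_union_right
    (fun i => i - 3 * C - 2 + (m + 1))
    (fun i => if C + 1 ≤ i then 2 * C + 2 - (m + 1) - i else 0)
  have h := tileable_three (T := leftStones ∪ bones)
    (by
      rintro t (ht | ht)
      · exact Or.inl (rot_left ht)
      · exact Or.inr (rot_bones ht))
    (rot_X C (m + 1)) hX hKt
    (by
      rw [Set.disjoint_left]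
      rintro ⟨i, j, k⟩ h1 h2
      simp only [X, Set.mem_ofPred_eq] at h1 h2
      rw [if_neg (by omega)] at h2
      omega)
    (by
      rw [Set.disjoint_left]
      rintro ⟨i, j, k⟩ h1 h2
      rw [mem_rot] at h2
      simp only [Set.mem_ofPred_eq] at h1 h2
      split_ifs at h1 h2 <;> omega)
  convert h using 1
  ext ⟨i, j, k⟩
  simp only [Set.mem_union, mem_rot]
  simp only [X, benzel, Set.mem_ofPred_eq]
  split_ifs <;> omega

/-- The case `a = b`. -/
theorem tileable_eq (e : ℕ) : Tileable (leftStones ∪ bones) (benzel (3 * e) (3 * e)) := by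
  have hX := tileable_tri e
  have hKt := tileable_rows (T := leftStones ∪ bones) Set.subset_union_right
    (fun i => i - 3 * (e : ℤ) + 1) (fun i => if (e : ℤ) + 1 ≤ i then 2 * e - i else 0)
  have h := tileable_three (T := leftStones ∪ bones)
    (by
      rintro t (ht | ht)
      · exact Or.inl (rot_left ht)
      · exact Or.inr (rot_bones ht))
    (by
      ext ⟨i, j, k⟩
      rw [mem_rot]
      simp only [Set.mem_ofPred_eq]
      omega) hX hKt
    (by
      rw [Set.disjoint_left]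
      rintro ⟨i, j, k⟩ h1 h2
      simp only [Set.mem_ofPred_eq] at h1 h2
      rw [if_neg (by omega)] at h2
      omega)
    (by
      rw [Set.disjoint_left]
      rintro ⟨i, j, k⟩ h1 h2
      rw [mem_rot] at h2
      simp only [Set.mem_ofPred_eq] at h1 h2
      split_ifs at h1 h2 <;> omega)
  convert h using 1
  ext ⟨i, j, k⟩
  simp only [Set.mem_union, mem_rot]
  simp only [benzel, Set.mem_ofPred_eq]
  split_ifs <;> omega

theorem refl_benzel (a b : ℤ) : refl '' benzel a b = benzel b a := by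
  ext ⟨i, j, k⟩
  rw [mem_refl]
  simp only [benzel, Set.mem_ofPred_eq]
  omega

/-- The case `a ≥ b`. -/
theorem tileable_of_le {a b : ℤ} (hba : b ≤ a) (h2 : 2 ≤ b) (h3 : (a + b) % 3 = 0)
    (hI : 3 * (a - b) ^ 2 ≤ a + b) : Tileable (leftStones ∪ bones) (benzel a b) := by
  obtain ⟨m, hm⟩ := Int.eq_ofNat_of_zero_le (sub_nonneg.2 hba)
  obtain rfl : a = b + m := by omega
  rcases m with _ | m
  · obtain ⟨e, he⟩ := Int.eq_ofNat_of_zero_le (show (0 : ℤ) ≤ b / 3 by omega)
    have hb : b = 3 * e := by push_cast at *; omega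
    have := tileable_eq e
    rw [← hb] at this
    simpa using this
  · push_cast at *
    have hpar : ((m : ℤ) + 1) * (m + 2) % 2 = 0 := by
      rcases Int.even_or_odd (m : ℤ) with ⟨r, hr⟩ | ⟨r, hr⟩
      · rw [hr]
        have : (r + r + 1) * (r + r + 2) = 2 * ((2 * r + 1) * (r + 1)) := by ring
        omega
      · rw [hr]
        have : (2 * r + 1 + 1) * (2 * r + 1 + 2) = 2 * ((r + 1) * (2 * r + 3)) := by ring
        omega
    have hsq : (b + (m + 1) - b) ^ 2 = ((m : ℤ) + 1) * (m + 2) - (m + 1) := by ring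
    rw [hsq] at hI
    set M : ℤ := ((m : ℤ) + 1) * (m + 2) with hM
    obtain ⟨e, he⟩ := Int.eq_ofNat_of_zero_le
      (show (0 : ℤ) ≤ ((2 * b + (m + 1)) / 3 - (M - (m + 1))) / 2 by omega)
    have := tileable_gt e m
    rw [← hM] at this
    have e1 : 3 * ((e : ℤ) + M / 2 - 1) + 3 - (m + 1) = b + (m + 1) := by
      have : (e : ℤ) = ((2 * b + (m + 1)) / 3 - (M - (m + 1))) / 2 := by rw [he]
      omega
    have e2 : 3 * ((e : ℤ) + M / 2 - 1) + 3 - 2 * (m + 1) = b := by omega
    rw [e1, e2] at this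
    exact this

/-- For all integers `a, b` with `2 ≤ a ≤ 2 b`, `2 ≤ b ≤ 2 a` and `I(a, b) ≤ 0` the benzel `B(a, b)` is a
disjoint union of left stones and bones. -/
theorem result : ∀ a b : ℤ, 2 ≤ a → a ≤ 2 * b → 2 ≤ b → b ≤ 2 * a → invariant a b ≤ 0 →
    ∃ P : Set (Set (ℤ × ℤ × ℤ)), (∀ t ∈ P, IsLeftStone t ∨ IsBone t) ∧
      P.PairwiseDisjoint id ∧ ⋃₀ P = benzel a b := by
  intro a b ha hab hb hba hI
  have key : Tileable (leftStones ∪ bones) (benzel a b) := by
    have h3 : (a + b) % 3 = 0 ∧ 3 * (a - b) ^ 2 ≤ a + b := by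
      unfold invariant at hI
      split_ifs at hI with h0 h1
      · refine ⟨h0, ?_⟩
        have e : 3 * (a - b) ^ 2 = 3 * a ^ 2 - 6 * a * b + 3 * b ^ 2 := by ring
        have : (3 * a ^ 2 - 6 * a * b + 3 * b ^ 2 - a - b) % 2 = 0 := by
          have e2 : 3 * a ^ 2 - 6 * a * b + 3 * b ^ 2 - a - b =
            2 * (a ^ 2 - 3 * a * b + b ^ 2 - a) + (a * (a + 1) + b * (b - 1)) := by ring
          have h1 : a * (a + 1) % 2 = 0 := Int.even_iff.1 (Int.even_mul_succ_self a)
          have h2 : b * (b - 1) % 2 = 0 := Int.even_iff.1 (Int.even_mul_pred_self b)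
          omega
        omega
      · exfalso
        have : 2 ≤ -a ^ 2 + 4 * a * b - b ^ 2 - a - b + 2 := by
          rcases le_total a b with h | h
          · nlinarith [mul_nonneg (sub_nonneg.2 hba) (sub_nonneg.2 ha),
              mul_nonneg (sub_nonneg.2 hba) (sub_nonneg.2 h),
              mul_nonneg (sub_nonneg.2 hab) (sub_nonneg.2 hb),
              mul_nonneg (sub_nonneg.2 hab) (sub_nonneg.2 ha),
              mul_nonneg (sub_nonneg.2 hba) (sub_nonneg.2 hb)]
          · nlinarith [mul_nonneg (sub_nonneg.2 hba) (sub_nonneg.2 ha),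
              mul_nonneg (sub_nonneg.2 hab) (sub_nonneg.2 h),
              mul_nonneg (sub_nonneg.2 hab) (sub_nonneg.2 hb),
              mul_nonneg (sub_nonneg.2 hab) (sub_nonneg.2 ha),
              mul_nonneg (sub_nonneg.2 hba) (sub_nonneg.2 hb)]
        omega
      · exfalso
        have : 2 ≤ 3 * a ^ 2 - 6 * a * b + 3 * b ^ 2 + a + b - 2 := by
          nlinarith [sq_nonneg (a - b)]
        omega
    rcases le_total b a with h | h
    · exact tileable_of_le h hb h3.1 h3.2
    · have := tileable_of_le h ha (by rw [add_comm]; exact h3.1)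
        (by
          have e : (b - a) ^ 2 = (a - b) ^ 2 := by ring
          rw [e]
          linarith [h3.2])
      have := this.image (T' := leftStones ∪ bones) refl_inj (by
        rintro t (ht | ht)
        · exact Or.inl (refl_left ht)
        · exact Or.inr (refl_bones ht))
      rwa [refl_benzel] at this
  obtain ⟨P, h1, h2, h3⟩ := key
  refine ⟨P, fun t ht => ?_, h2, h3⟩
  rcases h1 ht with ⟨i, j, k, hs, rfl⟩ | ⟨c, d, hc, hd, rfl⟩
  · left
    refine ⟨(i, j, k), hs, ?_⟩
    simp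
  · right
    refine ⟨c, d, hc, ?_, ?_⟩
    · simpa [dirs] using hd
    · rw [bone, two_smul, add_assoc]

end Pool.Agent.Results.MP_cb668b_co.LeftStonesAndBones
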